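import Mathlib

namespace Pool.Agent.Results.MP_29b953_an.Chebyshev

open Polynomial

def Compresses (S : Finset ℝ) (f : ℝ[X]) : Prop :=
  ∃ x₀ ∈ S, (S : Set ℝ) = {y | ∃ i < S.card, y = (fun x => f.eval x)^[i] x₀}

lemma grp {G : Type} [CommGroup G] [Fintype G] (N : ℕ) (hN : 0 < N) (u e : G)
    (hu : orderOf u = 2 * N) (hG : Fintype.card G = 2 * N) (he : e * e = 1) (he1 : e ≠ 1) :
    (∀ x : G, ∃ i < N, x = u ^ i ∨ x = e * u ^ i) ∧
      ∀ i < N, ∀ j < N, (u ^ i = u ^ j ∨ u ^ i = e * u ^ j) → i = j := by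
  classical
  have hall : ∀ x : G, ∃ i < 2 * N, x = u ^ i := by
    intro x
    have hc : ((Finset.range (2 * N)).image (u ^ ·)).card = Fintype.card G := by
      rw [Finset.card_image_of_injOn, Finset.card_range, hG]
      intro i hi j hj h
      have := pow_eq_pow_iff_modEq.1 h
      rw [hu] at this
      exact Nat.ModEq.eq_of_lt_of_lt this (by simpa using hi) (by simpa using hj)
    have := Finset.eq_univ_of_card _ hc
    have hx : x ∈ (Finset.range (2 * N)).image (u ^ ·) := by rw [this]; simp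
    obtain ⟨i, hi, rfl⟩ := Finset.mem_image.1 hx
    exact ⟨i, by simpa using hi, rfl⟩
  have heN : e = u ^ N := by
    obtain ⟨t, ht, rfl⟩ := hall e
    have h2 : 2 * N ∣ t + t := by
      rw [← hu]; apply orderOf_dvd_of_pow_eq_one; rw [pow_add]; exact he
    obtain ⟨c, hc⟩ := h2
    have hc2 : t = N * c := by nlinarith
    have : c < 2 := by
      by_contra h
      push Not at h
      nlinarith
    interval_cases c
    · simp [hc2] at he1
    · simp [hc2]
  constructor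
  · intro x
    obtain ⟨i, hi, rfl⟩ := hall x
    by_cases h : i < N
    · exact ⟨i, h, Or.inl rfl⟩
    · refine ⟨i - N, by omega, Or.inr ?_⟩
      rw [heN, ← pow_add]; congr 1; omega
  · intro i hi j hj h
    rcases h with h | h
    · have := pow_eq_pow_iff_modEq.1 h
      rw [hu] at this
      exact Nat.ModEq.eq_of_lt_of_lt this (by omega) (by omega)
    · rw [heN, ← pow_add] at h
      have := pow_eq_pow_iff_modEq.1 h
      rw [hu] at this
      have := Nat.ModEq.eq_of_lt_of_lt this (by omega) (by omega)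
      omega

noncomputable def cs (m : ℕ) (a : ℤ) : ℝ := Real.cos (2 * Real.pi * a / m)

lemma cs_iff (m : ℕ) (hm : 0 < m) (a b : ℤ) :
    cs m a = cs m b ↔ ((a : ZMod m) = b ∨ (a : ZMod m) = -b) := by
  have hm' : (m : ℝ) ≠ 0 := by positivity
  have hp := Real.pi_pos
  unfold cs
  rw [Real.cos_eq_cos_iff]
  constructor
  · rintro ⟨k, h | h⟩
    · left
      have : (b : ℝ) = k * m + a := by field_simp at h; linarith
      have : b = k * m + a := by exact_mod_cast this
      rw [this]; simp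
    · right
      have : (b : ℝ) = k * m - a := by field_simp at h; linarith
      have : b = k * m - a := by exact_mod_cast this
      rw [this]; simp
  · rintro (h | h)
    · obtain ⟨k, hk⟩ := (ZMod.intCast_eq_intCast_iff_dvd_sub a b m).1 h
      refine ⟨k, Or.inl ?_⟩
      have : (b : ℝ) = a + m * k := by
        have : b = a + m * k := by linarith
        exact_mod_cast this
      rw [this]; field_simp; ring
    · obtain ⟨k, hk⟩ := (ZMod.intCast_eq_intCast_iff_dvd_sub a (-b) m).1 (by simpa using h)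
      refine ⟨-k, Or.inr ?_⟩
      have : (b : ℝ) = -a - m * k := by
        have : b = -a - m * k := by linarith
        exact_mod_cast this
      rw [this]; push_cast; field_simp; ring

lemma ord (k g : ℕ) (a : ℤ) (ha : ¬ (5 : ℤ) ∣ a) (hg : (g : ℤ) ^ 4 = 1 + 5 * a)
    (h5 : orderOf (g : ZMod 5) = 4) : orderOf (g : ZMod (5 ^ (k + 1))) = 2 * (2 * 5 ^ k) := by
  have h1 := ZMod.orderOf_one_add_mul_prime (p := 5) (by norm_num) (by norm_num) a
    (by exact_mod_cast ha) k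
  have h2 : (g : ZMod (5 ^ (k + 1))) ^ 4 = 1 + (5 : ℕ) * a := by
    have := congrArg (Int.cast : ℤ → ZMod (5 ^ (k + 1))) hg
    push_cast at this ⊢
    exact this
  rw [← h2, orderOf_pow' _ (by norm_num)] at h1
  have h4 : 4 ∣ orderOf (g : ZMod (5 ^ (k + 1))) := by
    rw [← h5]
    apply orderOf_dvd_of_pow_eq_one
    have := congrArg (ZMod.castHom (dvd_pow_self 5 (Nat.succ_ne_zero k)) (ZMod 5))
      (pow_orderOf_eq_one (g : ZMod (5 ^ (k + 1))))
    rw [map_pow, map_natCast, map_one] at this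
    exact this
  rw [Nat.gcd_eq_right h4] at h1
  obtain ⟨c, hc⟩ := h4
  rw [hc] at h1 ⊢
  rw [Nat.mul_div_cancel_left _ (by norm_num)] at h1
  rw [h1]; ring

lemma main (k g : ℕ) (hco : Nat.Coprime g (5 ^ (k + 1)))
    (ho : orderOf (g : ZMod (5 ^ (k + 1))) = 2 * (2 * 5 ^ k)) :
    (∀ x : (ZMod (5 ^ (k + 1)))ˣ, ∃ i < 2 * 5 ^ k,
      cs (5 ^ (k + 1)) (x : ZMod (5 ^ (k + 1))).val = cs (5 ^ (k + 1)) (g ^ i)) ∧
    (∀ i, ∃ x : (ZMod (5 ^ (k + 1)))ˣ,
      cs (5 ^ (k + 1)) (x : ZMod (5 ^ (k + 1))).val = cs (5 ^ (k + 1)) (g ^ i)) ∧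
    ∀ i < 2 * 5 ^ k, ∀ j < 2 * 5 ^ k,
      cs (5 ^ (k + 1)) (g ^ i) = cs (5 ^ (k + 1)) (g ^ j) → i = j := by
  have hm : 0 < 5 ^ (k + 1) := by positivity
  haveI : NeZero (5 ^ (k + 1)) := ⟨hm.ne'⟩
  set u := ZMod.unitOfCoprime g hco with hu
  have huv : (u : ZMod (5 ^ (k + 1))) = g := ZMod.coe_unitOfCoprime _ _
  have hou : orderOf u = 2 * (2 * 5 ^ k) := by rw [← orderOf_units, huv, ho]
  have hG : Fintype.card (ZMod (5 ^ (k + 1)))ˣ = 2 * (2 * 5 ^ k) := by
    rw [ZMod.card_units_eq_totient, Nat.totient_prime_pow (by norm_num) (Nat.succ_pos k)]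
    simp; ring
  have he1 : (-1 : (ZMod (5 ^ (k + 1)))ˣ) ≠ 1 := by
    intro h
    have h1 : (-1 : ZMod (5 ^ (k + 1))) = 1 := by simpa using congrArg Units.val h
    have := congrArg (ZMod.castHom (dvd_pow_self 5 (Nat.succ_ne_zero k)) (ZMod 5)) h1
    rw [map_neg, map_one] at this
    revert this; decide
  obtain ⟨h1, h2⟩ := grp (2 * 5 ^ k) (by positivity) u (-1) hou hG (by simp) he1
  refine ⟨fun x => ?_, fun i => ⟨u ^ i, ?_⟩, fun i hi j hj h => h2 i hi j hj ?_⟩
  · obtain ⟨i, hi, h⟩ := h1 x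
    refine ⟨i, hi, (cs_iff _ hm _ _).2 ?_⟩
    rcases h with h | h
    · left; rw [h]; simp [huv]
    · right; rw [h]; simp [huv]
  · refine (cs_iff _ hm _ _).2 (Or.inl ?_)
    simp [huv]
  · rcases (cs_iff _ hm _ _).1 h with h | h
    · left; apply Units.ext; simpa [huv] using h
    · right; apply Units.ext; simpa [huv] using h

lemma compress (k g : ℕ) (hco : Nat.Coprime g (5 ^ (k + 1)))
    (ho : orderOf (g : ZMod (5 ^ (k + 1))) = 2 * (2 * 5 ^ k)) (f : ℝ[X])
    (hf : ∀ t, f.eval (Real.cos t) = Real.cos (g * t)) (S : Finset ℝ)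
    (hS : ∀ y, y ∈ S ↔ ∃ x : (ZMod (5 ^ (k + 1)))ˣ,
      cs (5 ^ (k + 1)) (x : ZMod (5 ^ (k + 1))).val = y) :
    S.card = 2 * 5 ^ k ∧ Compresses S f := by
  classical
  obtain ⟨h1, h2, h3⟩ := main k g hco ho
  have hit : ∀ i, (fun x => f.eval x)^[i] (cs (5 ^ (k + 1)) (g ^ 0)) =
      cs (5 ^ (k + 1)) (g ^ i) := by
    intro i
    induction i with
    | zero => rfl
    | succ i ih =>
      rw [Function.iterate_succ_apply', ih]
      unfold cs
      rw [hf]; congr 1; push_cast; ring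
  have hS' : S = (Finset.range (2 * 5 ^ k)).image fun i => cs (5 ^ (k + 1)) (g ^ i) := by
    ext y
    rw [hS, Finset.mem_image]
    constructor
    · rintro ⟨x, rfl⟩
      obtain ⟨i, hi, h⟩ := h1 x
      exact ⟨i, by simpa using hi, h.symm⟩
    · rintro ⟨i, -, rfl⟩
      exact h2 i
  have hc : S.card = 2 * 5 ^ k := by
    rw [hS', Finset.card_image_of_injOn, Finset.card_range]
    intro i hi j hj h
    exact h3 i (by simpa using hi) j (by simpa using hj) h
  refine ⟨hc, cs (5 ^ (k + 1)) (g ^ 0), (hS _).2 (h2 0), ?_⟩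
  ext y
  simp only [hit, hc, Finset.mem_coe, Set.mem_ofPred_eq]
  rw [hS', Finset.mem_image]
  constructor
  · rintro ⟨i, hi, rfl⟩; exact ⟨i, by simpa using hi, rfl⟩
  · rintro ⟨i, hi, rfl⟩; exact ⟨i, by simpa using hi, rfl⟩

theorem result (K : ℕ) (hK : 3 ≤ K) (M : ℕ) :
    ∃ S : Finset ℝ, M ≤ S.card ∧ ∃ f g : ℝ[X], f ≠ g ∧
      2 ≤ f.natDegree ∧ f.natDegree ≤ K ∧ 2 ≤ g.natDegree ∧ g.natDegree ≤ K ∧
      Compresses S f ∧ Compresses S g := by
  classical
  haveI : NeZero (5 ^ (M + 1)) := ⟨by positivity⟩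
  set S : Finset ℝ := Finset.univ.image fun x : (ZMod (5 ^ (M + 1)))ˣ =>
    cs (5 ^ (M + 1)) (x : ZMod (5 ^ (M + 1))).val
  have hS : ∀ y, y ∈ S ↔ ∃ x : (ZMod (5 ^ (M + 1)))ˣ,
      cs (5 ^ (M + 1)) (x : ZMod (5 ^ (M + 1))).val = y := by
    intro y; simp [S]
  have o2 : orderOf ((2 : ℕ) : ZMod 5) = 4 := by
    rw [orderOf_eq_iff (by norm_num)]; decide
  have o3 : orderOf ((3 : ℕ) : ZMod 5) = 4 := by
    rw [orderOf_eq_iff (by norm_num)]; decide
  obtain ⟨hc, h2⟩ := compress M 2 (Nat.Coprime.pow_right _ (by norm_num))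
    (ord M 2 3 (by norm_num) (by norm_num) o2) (C 2 * X ^ 2 - 1)
    (fun t => by simp [Real.cos_two_mul]) S hS
  obtain ⟨-, h3⟩ := compress M 3 (Nat.Coprime.pow_right _ (by norm_num))
    (ord M 3 16 (by norm_num) (by norm_num) o3) (C 4 * X ^ 3 - C 3 * X)
    (fun t => by simp [Real.cos_three_mul]) S hS
  have d2 : (C 2 * X ^ 2 - 1 : ℝ[X]).natDegree = 2 := by compute_degree!
  have d3 : (C 4 * X ^ 3 - C 3 * X : ℝ[X]).natDegree = 3 := by compute_degree!
  refine ⟨S, ?_, _, _, ?_, by omega, by omega, by omega, by omega, h2, h3⟩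
  · rw [hc]
    have := Nat.lt_pow_self (n := M) (show 1 < 5 by norm_num)
    omega
  · intro h
    rw [h] at d2; omega

end Pool.Agent.Results.MP_29b953_an.Chebyshev
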